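import Pool.Agent.Helper71.WP.IC
import Pool.Agent.Helper71.PN.Isog

/-!
# Isogeny classes: the two forms of the definition
-/

set_option autoImplicit false

namespace Pool.Agent.Helper71.IC

open Polynomial TensorProduct

variable {p : ℕ} {P : ∀ (A : Type) [CommRing A], Prop}

theorem Fg.of_surj {A B : Type} [CommRing A] [CommRing B] (f : A →+* B)
    (hf : Function.Surjective f) (h : Fg p A) : Fg p B := by
  refine ⟨?_, ?_⟩
  · have := h.1
    exact Algebra.FiniteType.of_surjective f.toIntAlgHom hf
  · rw [← map_natCast f, h.2, map_zero]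

theorem char_of_inj {A B : Type} [CommRing A] [CommRing B] (f : A →+* B)
    (hf : Function.Injective f) (h : (p : B) = 0) : (p : A) = 0 := by
  apply hf
  rw [map_natCast, h, map_zero]

theorem IsogenyClass.old (h : IsogenyClass p P) : Pool.Agent.Helper71.PN.IsogenyClass p P where
  ft A _ hA := (h.fg A hA).1
  char A _ hA := (h.fg A hA).2
  curve A _ h1 h2 h3 := h.curve A ⟨h1, h2⟩ h3
  iso A B _ _ e hA := (h.pair A B).1 e hA
  tensor A B _ _ hA hB := (h.pair A B).2 hA hB
  glue A _ a h1 h2 h3 h4 := (h.glue A a ⟨h1, h2⟩).1 h3 h4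
  closed A _ a h1 h2 := (h.glue A a (h.fg A h1)).2.1 h1 h2
  opn A _ a h1 h2 := (h.glue A a (h.fg A h1)).2.2 h1 h2
  summand A _ e h1 h2 := h.summand A e (by rw [sq]; exact h1) h2
  poly A _ hA := (h.line A).1 hA
  transfer A B _ _ _ _ _ _ h3 h4 := by
    refine h.descent A B ⟨h3, ?_⟩ inferInstance inferInstance inferInstance h4
    exact char_of_inj (algebraMap A B) (FaithfulSMul.algebraMap_injective A B) (h.fg B h4).2
  twist A _ a n h1 h2 h3 := by
    refine h.mult A n a ?_ h1 h2 h3
    have hn : n ≠ 0 := by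
      rintro rfl
      exact h2 (dvd_zero p)
    have h0 : eval₂ (eval₂RingHom (RingHom.id A) 0) (0 : A)
        (C (C a * X ^ n) - X * (1 - X) : A[X][X]) = 0 := by
      rw [eval₂_sub, eval₂_C, eval₂_mul, eval₂_X, zero_mul, sub_zero, map_mul, map_pow,
        coe_eval₂RingHom, eval₂_X, zero_pow hn, mul_zero]
    let f : AdjoinRoot (C (C a * X ^ n) - X * (1 - X) : A[X][X]) →+* A :=
      AdjoinRoot.lift (eval₂RingHom (RingHom.id A) 0) 0 h0
    refine Fg.of_surj f (fun x => ⟨AdjoinRoot.of _ (C x), ?_⟩) (h.fg _ h3)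
    change AdjoinRoot.lift (eval₂RingHom (RingHom.id A) 0) 0 h0 (AdjoinRoot.of _ (C x)) = x
    rw [AdjoinRoot.lift_of]
    simp
  line A _ hA := (h.line A).2 hA
  additive K A _ _ _ _ φ a h1 h2 h3 h4 h5 := by
    refine h.add K A φ a ⟨h2, ?_⟩ h3 ?_ h1 h5
    · have hm : (X ^ 2 - C (C a - φ.map (algebraMap K A)) : A[X][X]).Monic :=
        monic_X_pow_sub_C _ two_ne_zero
      have hi : Function.Injective (AdjoinRoot.of
          (X ^ 2 - C (C a - φ.map (algebraMap K A)) : A[X][X])) := by
        rcases subsingleton_or_nontrivial A with h0 | h0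
        · exact fun x y _ => Subsingleton.elim x y
        have := hm.free_adjoinRoot
        have := Pool.Agent.Helper71.PN.adj_nontrivial hm (by
          rw [natDegree_X_pow_sub_C]
          exact two_pos)
        exact FaithfulSMul.algebraMap_injective A[X] (AdjoinRoot
          (X ^ 2 - C (C a - φ.map (algebraMap K A)) : A[X][X]))
      refine char_of_inj ((AdjoinRoot.of _).comp C) ?_ (h.fg _ h5).2
      exact hi.comp C_injective
    · intro h6
      have h7 := congrArg (fun q => q.coeff 0) h6
      simp only [coeff_derivative, coeff_zero] at h7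
      apply h4
      simpa using h7

end Pool.Agent.Helper71.IC
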