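import Pool.Agent.Helper71.WP.ConicAll
import Pool.Agent.Helper71.CP.WildAll
import Pool.Agent.Helper71.QP.Sums

/-!
# Covers of weighted planes
-/

set_option autoImplicit false

namespace Pool.Agent.Helper71.WP

open Pool.Agent.Helper29.CQ Pool.Agent.Helper65.CC Pool.Agent.Helper87.CC
  Pool.Agent.Helper65.CC.KFn
open Pool.Agent.Helper71.PN
open Pool.Agent.Helper29.PF (plane_closed StableClass)
open Pool.Agent.Helper9.QP (Gen)
open Polynomial

variable {k : Type} [Field k] {p : ℕ} {P : ∀ (A : Type) [CommRing A], Prop}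

/-! ### Exchange of the variables -/

/-- the exchange of the variables -/
noncomputable def sw (f : MvPolynomial (Fin 2) k) : MvPolynomial (Fin 2) k :=
  MvPolynomial.rename (Equiv.swap (0 : Fin 2) 1) f

theorem ev2_sw (f : MvPolynomial (Fin 2) k) {R : Type} [CommRing R] [Algebra k R] (x y : R) :
    ev2 (sw f) x y = ev2 f y x := by
  rw [ev2, ev2, sw, MvPolynomial.aeval_rename]
  have h : (![x, y] : Fin 2 → R) ∘ (Equiv.swap (0 : Fin 2) 1) = ![y, x] := by
    funext i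
    fin_cases i <;> rfl
  rw [h]

/-- the exchange of the variables -/
noncomputable def swIso (f g : MvPolynomial (Fin 2) k) (φ : k[X]) :
    Iso (AF f g φ) (AF (sw f) (sw g) φ) where
  hom {R} _ _ x := ⟨((x.1.1.2, x.1.1.1), x.1.2), by
    have h1 : ev2 g x.1.1.1 x.1.1.2 ^ 2 * aeval x.1.2 φ - ev2 f x.1.1.1 x.1.1.2 = 0 := x.2
    change ev2 (sw g) x.1.1.2 x.1.1.1 ^ 2 * aeval x.1.2 φ - ev2 (sw f) x.1.1.2 x.1.1.1 = 0
    rw [ev2_sw, ev2_sw]
    exact h1⟩
  inv {R} _ _ y := ⟨((y.1.1.2, y.1.1.1), y.1.2), by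
    have h1 : ev2 (sw g) y.1.1.1 y.1.1.2 ^ 2 * aeval y.1.2 φ - ev2 (sw f) y.1.1.1 y.1.1.2 = 0 :=
      y.2
    change ev2 g y.1.1.2 y.1.1.1 ^ 2 * aeval y.1.2 φ - ev2 f y.1.1.2 y.1.1.1 = 0
    rw [ev2_sw, ev2_sw] at h1
    exact h1⟩
  inv_hom _ := rfl
  hom_inv _ := rfl
  nat _ _ := rfl

theorem mem_sw [Finite k] (hP : FormalClass p P) (hk : (p : k) = 0)
    (f g : MvPolynomial (Fin 2) k) (φ : k[X]) (h : P (AdjoinRoot (gp (sw f) (sw g) φ))) :
    P (AdjoinRoot (gp f g φ)) := by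
  obtain ⟨b, hb⟩ := rep_AF f g φ
  obtain ⟨b', hb'⟩ := rep_AF (sw f) (sw g) φ
  have hft : Algebra.FiniteType k (AdjoinRoot (gp f g φ)) :=
    Algebra.FiniteType.trans (S := MvPolynomial (Fin 2) k) inferInstance inferInstance
  exact Mem.of_iso (swIso f g φ) (Mem.of_rep (gops_k hP k hk).toKOps hb' h) _ b hft hb

theorem supp_sw (f : MvPolynomial (Fin 2) k) {m : Fin 2 →₀ ℕ} (hm : m ∈ (sw f).support) :
    ∃ n ∈ f.support, n 0 = m 1 ∧ n 1 = m 0 := by
  rw [MvPolynomial.mem_support_iff, sw] at hm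
  obtain ⟨n, hn, hn'⟩ := MvPolynomial.coeff_rename_ne_zero _ _ _ hm
  refine ⟨n, MvPolynomial.mem_support_iff.2 hn', ?_, ?_⟩
  · rw [← hn]
    have h1 := Finsupp.mapDomain_apply (Equiv.swap (0 : Fin 2) 1).injective n 0
    rw [Equiv.swap_apply_left] at h1
    exact h1.symm
  · rw [← hn]
    have h1 := Finsupp.mapDomain_apply (Equiv.swap (0 : Fin 2) 1).injective n 1
    rw [Equiv.swap_apply_right] at h1
    exact h1.symm

/-! ### Weights -/

theorem wt_cone_f {a b i j : ℕ} (hab : a < b) (hb : b ≤ 2 * a) (h : a * i + b * j ≤ 2 * (a + b)) :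
    i + 2 * j ≤ 6 := by
  have ha : 0 < a := by omega
  have hj : j < 4 := by
    by_contra hj
    push Not at hj
    have : b * 4 ≤ b * j := Nat.mul_le_mul_left b hj
    omega
  have hi : ∀ c, a * c < a * (c + 1) := fun c => by rw [mul_add]; omega
  interval_cases j
  · have h1 : a * i ≤ a * 6 := by omega
    have := Nat.le_of_mul_le_mul_left h1 ha
    omega
  · have h1 : a * i ≤ a * 4 := by omega
    have := Nat.le_of_mul_le_mul_left h1 ha
    omega
  · have h1 : a * i ≤ a * 2 := by omega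
    have := Nat.le_of_mul_le_mul_left h1 ha
    omega
  · have h1 : a * i < a * 1 := by omega
    have := Nat.lt_of_mul_lt_mul_left h1
    omega

theorem wt_cone_g {a b i j : ℕ} (hab : a < b) (hb : b ≤ 2 * a) (h : a * i + b * j ≤ a + b) :
    i + 2 * j ≤ 3 := by
  have ha : 0 < a := by omega
  have hj : j < 2 := by
    by_contra hj
    push Not at hj
    have : b * 2 ≤ b * j := Nat.mul_le_mul_left b hj
    omega
  interval_cases j
  · have h1 : a * i ≤ a * 3 := by omega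
    have := Nat.le_of_mul_le_mul_left h1 ha
    omega
  · have h1 : a * i ≤ a * 1 := by omega
    have := Nat.le_of_mul_le_mul_left h1 ha
    omega

theorem wt_conic_f {a b i j : ℕ} (hb : 2 * a < b) (h : a * i + b * j ≤ 2 * (a + b)) : j ≤ 2 := by
  by_contra hj
  push Not at hj
  have : b * 3 ≤ b * j := Nat.mul_le_mul_left b hj
  omega

theorem wt_conic_g {a b i j : ℕ} (hb : 2 * a < b) (h : a * i + b * j ≤ a + b) : j ≤ 1 := by
  by_contra hj
  push Not at hj
  have : b * 2 ≤ b * j := Nat.mul_le_mul_left b hj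
  omega

theorem wt_plane {a d : ℕ} (ha : 0 < a) (f : MvPolynomial (Fin 2) k)
    (hf : ∀ m ∈ f.support, a * m 0 + a * m 1 ≤ a * d) : f.totalDegree ≤ d := by
  rw [MvPolynomial.totalDegree, Finset.sup_le_iff]
  intro m hm
  have h1 := hf m hm
  rw [← mul_add] at h1
  have h2 := Nat.le_of_mul_le_mul_left h1 ha
  rw [Finsupp.sum_fintype _ _ (fun _ => rfl), Fin.sum_univ_two]
  exact h2

/-- **covers of weighted planes** -/
theorem weighted_le [Finite k] (hp : p.Prime) (hp2 : p ≠ 2) (hP : IsogenyClass p P) [CharP k p]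
    (hcone : ∀ f g : MvPolynomial (Fin 2) k, (∀ m ∈ f.support, m 0 + 2 * m 1 ≤ 6) →
      (∀ m ∈ g.support, m 0 + 2 * m 1 ≤ 3) → ∀ n, 0 < n →
        P (Gen (MvPolynomial (Fin 2) k) n (g ^ 2) f))
    {a b : ℕ} (hab : a ≤ b) (hb : 0 < b) (f g : MvPolynomial (Fin 2) k)
    (hf : ∀ m ∈ f.support, a * m 0 + b * m 1 ≤ 2 * (a + b))
    (hg : ∀ m ∈ g.support, a * m 0 + b * m 1 ≤ a + b) {φ : k[X]} (hφ : Isg p φ) :
    P (AdjoinRoot (gp f g φ)) := by
  rcases hab.eq_or_lt with rfl | hlt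
  · refine Pool.Agent.Helper71.QP.isogeny_pencils hp hp2 hP f g ?_ ?_ φ hφ
    · exact wt_plane hb f fun m hm => (hf m hm).trans (le_of_eq (by ring))
    · exact wt_plane hb g fun m hm => (hg m hm).trans (le_of_eq (by ring))
  · by_cases h2 : b ≤ 2 * a
    · have hf' : ∀ m ∈ f.support, m 0 + 2 * m 1 ≤ 6 := fun m hm => wt_cone_f hlt h2 (hf m hm)
      have hg' : ∀ m ∈ g.support, m 0 + 2 * m 1 ≤ 3 := fun m hm => wt_cone_g hlt h2 (hg m hm)
      rcases hφ with ⟨n, hn, rfl⟩ | ⟨h0, h1⟩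
      · have h3 := hcone f g hf' hg' n hn
        rw [gp, Polynomial.map_pow, map_X]
        exact h3
      · exact Pool.Agent.Helper71.CP.additive_cone_pencils hp hp2 hP f g hf' hg' φ h0 h1
    · exact conic_pencils hp hp2 hP.toFormalClass f g
        (fun m hm => wt_conic_f (by omega) (hf m hm)) (fun m hm => wt_conic_g (by omega) (hg m hm))
        hφ

/-- **covers of weighted planes** -/
theorem weighted_pencils [Finite k] (hp : p.Prime) (hp2 : p ≠ 2) (hP : IsogenyClass p P)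
    [CharP k p] (hcone : ∀ f g : MvPolynomial (Fin 2) k, (∀ m ∈ f.support, m 0 + 2 * m 1 ≤ 6) →
      (∀ m ∈ g.support, m 0 + 2 * m 1 ≤ 3) → ∀ n, 0 < n →
        P (Gen (MvPolynomial (Fin 2) k) n (g ^ 2) f))
    {a b : ℕ} (hab : 0 < a + b) (f g : MvPolynomial (Fin 2) k)
    (hf : ∀ m ∈ f.support, a * m 0 + b * m 1 ≤ 2 * (a + b))
    (hg : ∀ m ∈ g.support, a * m 0 + b * m 1 ≤ a + b) {φ : k[X]} (hφ : Isg p φ) :
    P (AdjoinRoot (gp f g φ)) := by
  rcases le_total a b with h | h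
  · exact weighted_le hp hp2 hP hcone h (by omega) f g hf hg hφ
  · refine mem_sw hP.toFormalClass (CharP.cast_eq_zero k p) f g φ
      (weighted_le hp hp2 hP hcone h (by omega) (sw f) (sw g) ?_ ?_ hφ)
    · intro m hm
      obtain ⟨n, hn, h0, h1⟩ := supp_sw f hm
      have h2 := hf n hn
      rw [h0, h1] at h2
      omega
    · intro m hm
      obtain ⟨n, hn, h0, h1⟩ := supp_sw g hm
      have h2 := hg n hn
      rw [h0, h1] at h2
      omega

/-- **sums over weighted planes** -/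
theorem weighted_sums [Finite k] (hp : p.Prime) (hp2 : p ≠ 2) (hP : IsogenyClass p P)
    [CharP k p] (hcone : ∀ f g : MvPolynomial (Fin 2) k, (∀ m ∈ f.support, m 0 + 2 * m 1 ≤ 6) →
      (∀ m ∈ g.support, m 0 + 2 * m 1 ≤ 3) → ∀ n, 0 < n →
        P (Gen (MvPolynomial (Fin 2) k) n (g ^ 2) f))
    {a b : ℕ} (hab : 0 < a + b) (f g : MvPolynomial (Fin 2) k)
    (hf : ∀ m ∈ f.support, a * m 0 + b * m 1 ≤ 2 * (a + b))
    (hg : ∀ m ∈ g.support, a * m 0 + b * m 1 ≤ a + b) (m : ℕ) (h : Fin m → k[X])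
    (hh : (∀ j, ∃ (c : k) (n : ℕ), 0 < n ∧ h j = C c * X ^ n) ∨
      ∃ j, h j ≠ 0 ∧ ∀ e ∈ (h j).support, ∃ i, e = p ^ i) :
    P (MvPolynomial (Fin m) (MvPolynomial (Fin 2) k) ⧸ Ideal.span {MvPolynomial.C (g ^ 2) *
      MvPolynomial.map MvPolynomial.C (∑ j, aeval (MvPolynomial.X j) (h j)) -
        MvPolynomial.C f}) := by
  have hk : (p : k) = 0 := CharP.cast_eq_zero k p
  exact tower_sums hP.toFormalClass hp hk inferInstance h hh
    (fun φ hφ => weighted_pencils hp hp2 hP hcone hab f g hf hg hφ)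
    (plane_closed hP.toFormalClass hk _) (plane_closed hP.toFormalClass hk _)

end Pool.Agent.Helper71.WP
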