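import Pool.Agent.Helper9.TP.Cone6
import Pool.Agent.Helper29.PF.Fib6
import Pool.Agent.Helper79.TP.Prod6
import Pool.Agent.Helper71.WP.Weighted

/-!
# Covers of weighted planes: the tame case of the cone
-/

set_option autoImplicit false

namespace Pool.Agent.Helper71.WP

open Pool.Agent.Helper71.PN
open Pool.Agent.Helper9.QP (Gen)
open Polynomial

theorem cone6Blocks : Pool.Agent.Helper9.TP.Cone6Blocks where
  fib6_ne h2 hG _ _ _ _ hW F E hF hE hF0 hE0 e he h :=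
    Pool.Agent.Helper29.PF.fib6_ne h2 hG hW F E hF hE hF0 hE0 e he h
  fib6_zero hG _ _ _ _ hW F E hF hE hF0 hE0 :=
    Pool.Agent.Helper29.PF.fib6_zero hG hW F E hF hE hF0 hE0
  prod6_x hP hk _ hn F E hF hE k' _ _ _ τ h h' :=
    Pool.Agent.Helper79.TP.prod6_x hP hk hn F E hF hE k' τ h h'
  prod6_y hP hk _ hn F E hF hE h h' := Pool.Agent.Helper79.TP.prod6_y hP hk hn F E hF hE h h'

variable {k : Type} [Field k] {p : ℕ} {P : ∀ (A : Type) [CommRing A], Prop}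

/-- **Cyclic covers of the quadric cone** -/
theorem cone_tame [Finite k] (hp : p.Prime) (hp2 : p ≠ 2) (hP : IsogenyClass p P) [CharP k p]
    (f g : MvPolynomial (Fin 2) k) (hf : ∀ m ∈ f.support, m 0 + 2 * m 1 ≤ 6)
    (hg : ∀ m ∈ g.support, m 0 + 2 * m 1 ≤ 3) (n : ℕ) (hn : 0 < n) :
    P (Gen (MvPolynomial (Fin 2) k) n (g ^ 2) f) :=
  Pool.Agent.Helper9.TP.cone_tame cone6Blocks hp hp2 hP.toStableClass f g hf hg n hn

/-- **Sums of isogenies over weighted planes** -/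
theorem sums [Finite k] (hp : p.Prime) (hp2 : p ≠ 2) (hP : IsogenyClass p P)
    [CharP k p] {a b : ℕ} (hab : 0 < a + b) (f g : MvPolynomial (Fin 2) k)
    (hf : ∀ m ∈ f.support, a * m 0 + b * m 1 ≤ 2 * (a + b))
    (hg : ∀ m ∈ g.support, a * m 0 + b * m 1 ≤ a + b) (m : ℕ) (h : Fin m → k[X])
    (hh : (∀ j, ∃ (c : k) (n : ℕ), 0 < n ∧ h j = C c * X ^ n) ∨
      ∃ j, h j ≠ 0 ∧ ∀ e ∈ (h j).support, ∃ i, e = p ^ i) :
    P (MvPolynomial (Fin m) (MvPolynomial (Fin 2) k) ⧸ Ideal.span {MvPolynomial.C (g ^ 2) *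
      MvPolynomial.map MvPolynomial.C (∑ j, aeval (MvPolynomial.X j) (h j)) -
        MvPolynomial.C f}) :=
  weighted_sums hp hp2 hP (fun f g hf hg n hn => cone_tame hp hp2 hP f g hf hg n hn) hab f g hf hg
    m h hh

end Pool.Agent.Helper71.WP
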