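import Pool.Agent.Helper71.PN.Join
import Pool.Agent.Helper71.PN.Ext

/-!
# Covers of conic bundles
-/

set_option autoImplicit false

namespace Pool.Agent.Helper71.WP

open Pool.Agent.Helper29.CQ Pool.Agent.Helper65.CC Pool.Agent.Helper87.CC
  Pool.Agent.Helper65.CC.KFn
open Pool.Agent.Helper9.QP (Cst)
open Pool.Agent.Helper71.PN
open Pool.Agent.Helper49.QP (bc rep_bc)
open Polynomial

/-! ### Points of the line -/

section points

variable {K : Type} [Field K] {G : ∀ (R : Type) [CommRing R] [Algebra K R], Prop}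

/-- the zeros of two polynomials on the line -/
noncomputable def Z2 (a b : K[X]) : KFn K :=
  ((A1 K).cls ⟨fun x => aeval (lp x) a, fun f x => (aeval_algHom_apply f (lp x) a).symm⟩).cls
    ⟨fun x => aeval (lp x.1) b, fun f x => (aeval_algHom_apply f (lp x.1) b).symm⟩

/-- the coordinate -/
def Z2.t (a b : K[X]) : Coord (Z2 a b) where
  val x := lp x.1.1
  nat _ _ := rfl

theorem mem_pt (hG : GOps K G) (a b : K[X]) (c : K) :
    ((Z2 a b).cls (subC (Z2.t a b) c)).Mem G := by
  by_cases h : a.eval c = 0 ∧ b.eval c = 0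
  · have h1 : ∀ (R : Type) [CommRing R] [Algebra K R], aeval (algebraMap K R c) a = 0 ∧
        aeval (algebraMap K R c) b = 0 := by
      intro R _ _
      rw [aeval_algebraMap_apply, aeval_algebraMap_apply, coe_aeval_eq_eval, h.1, h.2, map_zero]
      exact ⟨rfl, rfl⟩
    refine Mem.of_iso (F' := pnt K) ?_ (mem_pnt hG)
    exact
      { hom := fun {R} _ _ x => ()
        inv := fun {R} _ _ y => ⟨⟨⟨algebraMap K R c, (h1 R).1⟩, (h1 R).2⟩, sub_self _⟩
        inv_hom := fun {R} _ _ x => Subtype.ext (Subtype.ext (Subtype.ext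
          (sub_eq_zero.1 (x.2 : lp x.1.1.1 - algebraMap K R c = 0)).symm))
        hom_inv := fun _ => rfl
        nat := fun _ _ => rfl }
  · refine Mem.of_trivial hG.toKOps fun A _ _ x => ?_
    have h1 : lp x.1.1.1 = algebraMap K A c := sub_eq_zero.1 x.2
    have h2 : aeval (lp x.1.1.1) a = 0 := x.1.1.2
    have h3 : aeval (lp x.1.1.1) b = 0 := x.1.2
    rw [h1, aeval_algebraMap_apply, coe_aeval_eq_eval] at h2 h3
    by_contra hs
    rw [not_subsingleton_iff_nontrivial] at hs
    refine h ⟨?_, ?_⟩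
    · exact (algebraMap K A).injective (h2.trans (map_zero _).symm)
    · exact (algebraMap K A).injective (h3.trans (map_zero _).symm)

theorem mem_Z2 [IsAlgClosed K] (hG : GOps K G) (a b : K[X]) : (Z2 a b).Mem G := by
  by_cases ha : a = 0
  · by_cases hb : b = 0
    · refine Mem.of_iso (F' := A1 K) ?_ (mem_A1 hG)
      exact
        { hom := fun x => x.1.1
          inv := fun {R} _ _ y => ⟨⟨y, by
            change aeval (lp y) a = 0
            rw [ha, map_zero]⟩, by
            change aeval (lp y) b = 0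
            rw [hb, map_zero]⟩
          inv_hom := fun _ => rfl
          hom_inv := fun _ => rfl
          nat := fun _ _ => rfl }
    · have h1 := mem_cls_poly hG.toKOps (Z2 a b) (Z2.t a b) b hb (mem_pt hG a b)
      refine Mem.of_iso ?_ h1
      exact
        { hom := fun x => ⟨x, x.2⟩
          inv := fun y => y.1
          inv_hom := fun _ => rfl
          hom_inv := fun _ => rfl
          nat := fun _ _ => rfl }
  · have h1 := mem_cls_poly hG.toKOps (Z2 a b) (Z2.t a b) a ha (mem_pt hG a b)
    refine Mem.of_iso ?_ h1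
    exact
      { hom := fun x => ⟨x, x.1.2⟩
        inv := fun y => y.1
        inv_hom := fun _ => rfl
        hom_inv := fun _ => rfl
        nat := fun _ _ => rfl }

end points

/-! ### Constant curves -/

section curves

variable {K : Type} [Field K] {G : ∀ (R : Type) [CommRing R] [Algebra K R], Prop}
variable {k : Type} [Field k] [Algebra k K]

theorem mem_bc [Finite k] (hG : KOps K G) (hW : Cst k G) {F : KFn k} [hF : Rp F] (h : D1 F) :
    (bc K F).Mem G := by
  obtain ⟨A, _, _, a, hA, ha⟩ := hF.out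
  obtain ⟨w, hw⟩ := rep_bc (K := K) ha
  exact Mem.of_rep hG hw (hW A (ft_alg (ft_fin k) hA) (h A a hA ha).2)

/-- the curve `φ(w) = q(u)` -/
noncomputable def QC (q ψ : K[X]) : KFn K :=
  (A1 K).line.cls ⟨fun x => aeval x.2 ψ - aeval (lp x.1) q, fun f x => by
    rw [map_sub, ← aeval_algHom_apply, ← aeval_algHom_apply]
    rfl⟩

instance (q ψ : K[X]) : Rp (QC q ψ) := by
  unfold QC
  infer_instance

theorem QC.d1 (q ψ : K[X]) (hψ : 0 < ψ.natDegree) : D1 (QC q ψ) := by
  refine D1.of_iso (F' := rootF (A1 K) ⟨fun x => aeval (lp x) q, fun f x =>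
    (aeval_algHom_apply f (lp x) q).symm⟩ ψ) ?_ (D1.line1.root _ ψ hψ)
  exact
    { hom := fun x => x
      inv := fun y => y
      inv_hom := fun _ => rfl
      hom_inv := fun _ => rfl
      nat := fun _ _ => rfl }

theorem aeval_rs' {R : Type} [CommRing R] [Algebra K R] (y : R) (φ : k[X]) :
    @aeval k R _ _ (rsA k K R) y φ = aeval y (φ.map (algebraMap k K)) := by
  letI : Algebra k R := rsA k K R
  have : IsScalarTower k K R := IsScalarTower.of_algebraMap_eq fun _ => rfl
  rw [aeval_map_algebraMap]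

/-- base change -/
noncomputable def bcQC (q ψ : k[X]) :
    Iso (QC (q.map (algebraMap k K)) (ψ.map (algebraMap k K))) (bc K (QC q ψ)) where
  hom {R} _ _ x := ⟨x.1, by
    have h1 : aeval x.1.2 (ψ.map (algebraMap k K)) -
      aeval (lp x.1.1) (q.map (algebraMap k K)) = 0 := x.2
    rw [← aeval_rs', ← aeval_rs'] at h1
    exact h1⟩
  inv {R} _ _ y := ⟨y.1, by
    have h1 : @aeval k R _ _ (rsA k K R) y.1.2 ψ -
      @aeval k R _ _ (rsA k K R) (@lp k _ R _ (rsA k K R) y.1.1) q = 0 := y.2
    have h2 := aeval_rs' (k := k) (K := K) (R := R) y.1.2 ψ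
    have h3 := aeval_rs' (k := k) (K := K) (R := R) (lp (k := K) y.1.1) q
    change aeval y.1.2 (ψ.map (algebraMap k K)) -
      aeval (lp (k := K) y.1.1) (q.map (algebraMap k K)) = 0
    rw [← h2, ← h3]
    exact h1⟩
  inv_hom _ := rfl
  hom_inv _ := rfl
  nat _ _ := rfl

theorem mem_const [Finite k] (hG : KOps K G) (hW : Cst k G) (q ψ : k[X])
    (hψ : 0 < ψ.natDegree) : (QC (q.map (algebraMap k K)) (ψ.map (algebraMap k K))).Mem G :=
  Mem.of_iso (bcQC q ψ) (mem_bc hG hW (QC.d1 q ψ hψ))

/-- linear substitutions in the curve -/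
noncomputable def subQC {q q' ψ ψ' : K[X]} (α β γ δ e c : K) (hα : α ≠ 0) (hγ : γ ≠ 0)
    (he : e ≠ 0) (hq : q'.comp (C α * X + C β) = C e * q + C c)
    (hψ : ψ'.comp (C γ * X + C δ) = C e * ψ + C c) :
    Iso (QC q ψ) (QC q' ψ') where
  hom {R} _ _ x := ⟨((algebraMap K R α * lp x.1.1 + algebraMap K R β : R),
      algebraMap K R γ * x.1.2 + algebraMap K R δ), by
    have h1 : aeval x.1.2 ψ - aeval (lp x.1.1) q = 0 := x.2
    have h2 := congrArg (aeval (lp x.1.1)) hq
    have h3 := congrArg (aeval x.1.2) hψ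
    rw [aeval_comp, map_add, map_mul, aeval_C, aeval_C, aeval_X, map_add, map_mul, aeval_C,
      aeval_C] at h2
    rw [aeval_comp, map_add, map_mul, aeval_C, aeval_C, aeval_X, map_add, map_mul, aeval_C,
      aeval_C] at h3
    change aeval (algebraMap K R γ * x.1.2 + algebraMap K R δ) ψ' -
      aeval (algebraMap K R α * lp x.1.1 + algebraMap K R β) q' = 0
    rw [h2, h3]
    linear_combination algebraMap K R e * h1⟩
  inv {R} _ _ y := ⟨((algebraMap K R α⁻¹ * (lp y.1.1 - algebraMap K R β) : R),
      algebraMap K R γ⁻¹ * (y.1.2 - algebraMap K R δ)), by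
    have h1 : aeval y.1.2 ψ' - aeval (lp y.1.1) q' = 0 := y.2
    have hα' : algebraMap K R α * algebraMap K R α⁻¹ = 1 := by
      rw [← map_mul, mul_inv_cancel₀ hα, map_one]
    have hγ' : algebraMap K R γ * algebraMap K R γ⁻¹ = 1 := by
      rw [← map_mul, mul_inv_cancel₀ hγ, map_one]
    have he' : algebraMap K R e⁻¹ * algebraMap K R e = 1 := by
      rw [← map_mul, inv_mul_cancel₀ he, map_one]
    have h2 := congrArg (aeval (algebraMap K R α⁻¹ * (lp y.1.1 - algebraMap K R β))) hq
    have h3 := congrArg (aeval (algebraMap K R γ⁻¹ * (y.1.2 - algebraMap K R δ))) hψ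
    rw [aeval_comp, map_add, map_mul, aeval_C, aeval_C, aeval_X, map_add, map_mul, aeval_C,
      aeval_C, ← mul_assoc, hα', one_mul, sub_add_cancel] at h2
    rw [aeval_comp, map_add, map_mul, aeval_C, aeval_C, aeval_X, map_add, map_mul, aeval_C,
      aeval_C, ← mul_assoc, hγ', one_mul, sub_add_cancel] at h3
    change aeval (algebraMap K R γ⁻¹ * (y.1.2 - algebraMap K R δ)) ψ -
      aeval (algebraMap K R α⁻¹ * (lp y.1.1 - algebraMap K R β)) q = 0
    rw [h2, h3] at h1
    linear_combination algebraMap K R e⁻¹ * h1 -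
      (aeval (algebraMap K R γ⁻¹ * (y.1.2 - algebraMap K R δ)) ψ -
      aeval (algebraMap K R α⁻¹ * (lp y.1.1 - algebraMap K R β)) q) * he'⟩
  inv_hom {R} _ _ x := by
    have hα' : algebraMap K R α⁻¹ * algebraMap K R α = 1 := by
      rw [← map_mul, inv_mul_cancel₀ hα, map_one]
    have hγ' : algebraMap K R γ⁻¹ * algebraMap K R γ = 1 := by
      rw [← map_mul, inv_mul_cancel₀ hγ, map_one]
    refine Subtype.ext (Prod.ext ?_ ?_)
    · change algebraMap K R α⁻¹ * (algebraMap K R α * lp x.1.1 + algebraMap K R β -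
        algebraMap K R β) = lp x.1.1
      linear_combination lp x.1.1 * hα'
    · change algebraMap K R γ⁻¹ * (algebraMap K R γ * x.1.2 + algebraMap K R δ -
        algebraMap K R δ) = x.1.2
      linear_combination x.1.2 * hγ'
  hom_inv {R} _ _ y := by
    have hα' : algebraMap K R α * algebraMap K R α⁻¹ = 1 := by
      rw [← map_mul, mul_inv_cancel₀ hα, map_one]
    have hγ' : algebraMap K R γ * algebraMap K R γ⁻¹ = 1 := by
      rw [← map_mul, mul_inv_cancel₀ hγ, map_one]
    refine Subtype.ext (Prod.ext ?_ ?_)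
    · change algebraMap K R α * (algebraMap K R α⁻¹ * (lp y.1.1 - algebraMap K R β)) +
        algebraMap K R β = lp y.1.1
      linear_combination (lp y.1.1 - algebraMap K R β) * hα'
    · change algebraMap K R γ * (algebraMap K R γ⁻¹ * (y.1.2 - algebraMap K R δ)) +
        algebraMap K R δ = y.1.2
      linear_combination (y.1.2 - algebraMap K R δ) * hγ'
  nat {R S} _ _ _ _ f x := by
    refine Subtype.ext (Prod.ext ?_ ?_)
    · change f (algebraMap K R α * lp x.1.1 + algebraMap K R β) =
        algebraMap K S α * f (lp x.1.1) + algebraMap K S β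
      rw [map_add, map_mul, AlgHom.commutes, AlgHom.commutes]
    · change f (algebraMap K R γ * x.1.2 + algebraMap K R δ) =
        algebraMap K S γ * f x.1.2 + algebraMap K S δ
      rw [map_add, map_mul, AlgHom.commutes, AlgHom.commutes]

end curves

end Pool.Agent.Helper71.WP
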