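import Pool.Agent.Helper71.WP.Conic

/-!
# Covers of the line given by quadratic polynomials
-/

set_option autoImplicit false

namespace Pool.Agent.Helper71.WP

open Pool.Agent.Helper29.CQ Pool.Agent.Helper65.CC Pool.Agent.Helper87.CC
  Pool.Agent.Helper65.CC.KFn
open Pool.Agent.Helper9.QP (Cst)
open Pool.Agent.Helper71.PN
open Polynomial

variable {K : Type} [Field K] {G : ∀ (R : Type) [CommRing R] [Algebra K R], Prop}
variable {k : Type} [Field k] [Algebra k K]

/-- isogenies: powers and additive polynomials -/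
def Isg (p : ℕ) (φ : k[X]) : Prop :=
  (∃ n, 0 < n ∧ φ = X ^ n) ∨ (φ ≠ 0 ∧ ∀ m ∈ φ.support, ∃ i, m = p ^ i)

theorem Isg.pos {p : ℕ} (hp : p.Prime) {φ : k[X]} (h : Isg p φ) : 0 < φ.natDegree := by
  rcases h with ⟨n, hn, rfl⟩ | ⟨h0, h1⟩
  · rwa [natDegree_X_pow]
  · exact add_degree hp h1 h0

/-- the points over a value -/
theorem mem_val [IsAlgClosed K] (hG : GOps K G) (ψ : K[X]) (c : K) : (Z2 (ψ - C c) 0).Mem G :=
  mem_Z2 hG _ _

/-- the curve `φ(w) = u ^ 2 + γ` -/
theorem mem_sq [Finite k] [IsAlgClosed K] {p : ℕ} (hp : p.Prime) (hk : (p : K) = 0)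
    (hG : GOps K G) (hW : Cst k G) {φ : k[X]} (hφ : Isg p φ) (γ : K) :
    (QC (X ^ 2 + C γ) (φ.map (algebraMap k K))).Mem G := by
  have hpos := hφ.pos hp
  by_cases hγ : γ = 0
  · have h1 := mem_const hG.toKOps hW (X ^ 2) φ hpos
    rw [Polynomial.map_pow, map_X] at h1
    rw [hγ, C_0, add_zero]
    exact h1
  rcases hφ with ⟨n, hn, rfl⟩ | ⟨h0, h1⟩
  · obtain ⟨α, hα⟩ := IsAlgClosed.exists_pow_nat_eq (γ⁻¹) two_pos
    obtain ⟨δ, hδ⟩ := IsAlgClosed.exists_pow_nat_eq (γ⁻¹) hn
    have hα0 : α ≠ 0 := by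
      rintro rfl
      rw [zero_pow two_ne_zero] at hα
      exact inv_ne_zero hγ hα.symm
    have hδ0 : δ ≠ 0 := by
      rintro rfl
      rw [zero_pow hn.ne'] at hδ
      exact inv_ne_zero hγ hδ.symm
    have h2 := mem_const hG.toKOps hW (X ^ 2 + 1) (X ^ n) hpos
    rw [Polynomial.map_add, Polynomial.map_pow, map_X, Polynomial.map_one, Polynomial.map_pow,
      map_X] at h2
    rw [Polynomial.map_pow, map_X]
    refine Mem.of_iso (subQC α 0 δ 0 γ⁻¹ 0 hα0 hδ0 (inv_ne_zero hγ) ?_ ?_) h2
    · rw [add_comp, pow_comp, X_comp, one_comp, C_0, add_zero, mul_pow, ← C_pow, hα, mul_add,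
        ← C_mul, inv_mul_cancel₀ hγ, C_1, add_zero]
    · rw [pow_comp, X_comp, C_0, add_zero, mul_pow, ← C_pow, hδ, add_zero]
  · have h2 := mem_const hG.toKOps hW (X ^ 2) φ hpos
    rw [Polynomial.map_pow, map_X] at h2
    set ψ := φ.map (algebraMap k K) with hψ
    have hsup : ∀ m ∈ ψ.support, ∃ i, m = p ^ i := fun m hm => h1 m (support_map_subset _ _ hm)
    have hdeg : (ψ - C γ).degree ≠ 0 := by
      refine (natDegree_pos_iff_degree_pos.1 ?_).ne'
      rw [natDegree_sub_C, hψ, natDegree_map]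
      exact hpos
    obtain ⟨δ, hδ'⟩ := IsAlgClosed.exists_root _ hdeg
    have hδ : ψ.eval δ = γ := by
      rw [IsRoot.def, eval_sub, eval_C, sub_eq_zero] at hδ'
      exact hδ'
    refine Mem.of_iso (subQC 1 0 1 (-δ) 1 (-γ) one_ne_zero one_ne_zero one_ne_zero ?_ ?_) h2
    · rw [C_1, one_mul, C_0, add_zero, comp_X, one_mul, add_assoc, ← C_add, add_neg_cancel, C_0,
        add_zero]
    · have h3 := aeval_sub_add hp hk ψ hsup (X : K[X]) (C δ)
      rw [aeval_X_left_apply] at h3
      have h4 : aeval (C δ) ψ = (C γ : K[X]) := by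
        have h5 := aeval_algebraMap_apply K[X] δ ψ
        rw [coe_aeval_eq_eval, hδ] at h5
        exact h5
      rw [h4] at h3
      rw [C_1, one_mul, one_mul, C_neg, C_neg, ← sub_eq_add_neg, ← sub_eq_add_neg, ← h3]
      rfl

/-- the curve `φ(w) = q(u)`, `q` of degree at most two -/
theorem mem_QC [Finite k] [IsAlgClosed K] {p : ℕ} (hp : p.Prime) (hk : (p : K) = 0)
    (h2 : (2 : K) ≠ 0) (hG : GOps K G) (hW : Cst k G) {φ : k[X]} (hφ : Isg p φ) (q2 q1 q0 : K) :
    (QC (C q2 * X ^ 2 + C q1 * X + C q0) (φ.map (algebraMap k K))).Mem G := by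
  by_cases h3 : q2 = 0
  · by_cases h4 : q1 = 0
    · have hev : ∀ (R : Type) [CommRing R] [Algebra K R] (u : R),
          aeval u (C q2 * X ^ 2 + C q1 * X + C q0) = algebraMap K R q0 := by
        intro R _ _ u
        rw [h3, h4, C_0, zero_mul, zero_mul, zero_add, zero_add, aeval_C]
      refine Mem.of_iso (F' := (Z2 (φ.map (algebraMap k K) - C q0) 0).line) ?_
        (Mem.line hG.toKOps (mem_val hG _ _))
      exact
        { hom := fun {R} _ _ x => (⟨⟨x.1.2, by
            have h5 : aeval x.1.2 (φ.map (algebraMap k K)) -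
              aeval (lp x.1.1) (C q2 * X ^ 2 + C q1 * X + C q0) = 0 := x.2
            rw [hev] at h5
            change aeval x.1.2 (φ.map (algebraMap k K) - C q0) = 0
            rw [map_sub, aeval_C]
            exact h5⟩, map_zero _⟩, x.1.1)
          inv := fun {R} _ _ y => ⟨(y.2, y.1.1.1), by
            have h5 : aeval (lp y.1.1.1) (φ.map (algebraMap k K) - C q0) = 0 := y.1.1.2
            change aeval (lp y.1.1.1) (φ.map (algebraMap k K)) -
              aeval y.2 (C q2 * X ^ 2 + C q1 * X + C q0) = 0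
            rw [hev, ← h5, map_sub, aeval_C]⟩
          inv_hom := fun _ => rfl
          hom_inv := fun _ => rfl
          nat := fun _ _ => rfl }
    · refine Mem.of_iso (F' := A1 K) ?_ (mem_A1 hG)
      have key : ∀ (R : Type) [CommRing R] [Algebra K R], algebraMap K R q1 *
          algebraMap K R q1⁻¹ = 1 := by
        intro R _ _
        rw [← map_mul, mul_inv_cancel₀ h4, map_one]
      have hev : ∀ (R : Type) [CommRing R] [Algebra K R] (u : R),
          aeval u (C q2 * X ^ 2 + C q1 * X + C q0) =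
            algebraMap K R q1 * u + algebraMap K R q0 := by
        intro R _ _ u
        rw [h3, C_0, zero_mul, zero_add, map_add, map_mul, aeval_C, aeval_X, aeval_C]
      exact
        { hom := fun {R} _ _ x => x.1.2
          inv := fun {R} _ _ y => ⟨((algebraMap K R q1⁻¹ *
              (aeval (lp y) (φ.map (algebraMap k K)) - algebraMap K R q0) : R), y), by
            change aeval (lp y) (φ.map (algebraMap k K)) - aeval (algebraMap K R q1⁻¹ *
              (aeval (lp y) (φ.map (algebraMap k K)) - algebraMap K R q0))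
                (C q2 * X ^ 2 + C q1 * X + C q0) = 0
            rw [hev]
            have h5 := key R
            linear_combination (-(aeval (lp y) (φ.map (algebraMap k K)) -
              algebraMap K R q0)) * h5⟩
          inv_hom := fun {R} _ _ x => by
            refine Subtype.ext (Prod.ext ?_ rfl)
            have h6 : aeval x.1.2 (φ.map (algebraMap k K)) -
              aeval (lp x.1.1) (C q2 * X ^ 2 + C q1 * X + C q0) = 0 := x.2
            rw [hev] at h6
            have h5 := key R
            change algebraMap K R q1⁻¹ * (aeval x.1.2 (φ.map (algebraMap k K)) -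
              algebraMap K R q0) = lp x.1.1
            linear_combination algebraMap K R q1⁻¹ * h6 + lp x.1.1 * h5
          hom_inv := fun _ => rfl
          nat := fun _ _ => rfl }
  · obtain ⟨α, hα⟩ := IsAlgClosed.exists_pow_nat_eq q2 two_pos
    have hα0 : α ≠ 0 := by
      rintro rfl
      rw [zero_pow two_ne_zero] at hα
      exact h3 hα.symm
    set β := q1 / (2 * α) with hβ
    have hβ2 : 2 * (α * β) = q1 := by
      rw [hβ]
      field_simp
    refine Mem.of_iso (subQC α β 1 0 1 0 hα0 one_ne_zero one_ne_zero ?_ ?_)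
      (mem_sq hp hk hG hW hφ (q0 - β ^ 2))
    · rw [add_comp, pow_comp, X_comp, C_comp, C_1, one_mul, C_0, add_zero, ← hα, ← hβ2]
      simp only [C_sub, C_pow, C_mul, C_ofNat]
      ring
    · rw [C_1, one_mul, one_mul, C_0, add_zero, comp_X, add_zero]

end Pool.Agent.Helper71.WP
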