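import Pool.Agent.Helper71.WP.Conic2

/-!
# Covers of conic bundles: the fibres
-/

set_option autoImplicit false

namespace Pool.Agent.Helper71.WP

open Pool.Agent.Helper29.CQ Pool.Agent.Helper65.CC Pool.Agent.Helper87.CC
  Pool.Agent.Helper65.CC.KFn
open Pool.Agent.Helper9.QP (Cst)
open Pool.Agent.Helper71.PN
open Polynomial

variable {K : Type} [Field K] {G : ∀ (R : Type) [CommRing R] [Algebra K R], Prop}
variable {k : Type} [Field k] [Algebra k K]

theorem inv_inv_unit {R : Type} [CommRing R] {a : R} (h : IsUnit a) :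
    Ring.inverse (Ring.inverse a) = a := by
  have h1 := Ring.mul_inverse_cancel a h
  have h2 := Ring.inverse_mul_cancel _ h.ringInverse
  linear_combination a * h2 - Ring.inverse (Ring.inverse a) * h1

/-- the value of a quadratic polynomial -/
def qv (a2 a1 a0 : K) {R : Type} [CommRing R] [Algebra K R] (y : R) : R :=
  algebraMap K R a2 * y ^ 2 + algebraMap K R a1 * y + algebraMap K R a0

theorem qv_map (a2 a1 a0 : K) {R S : Type} [CommRing R] [Algebra K R] [CommRing S] [Algebra K S]
    (f : R →ₐ[K] S) (y : R) : f (qv a2 a1 a0 y) = qv a2 a1 a0 (f y) := by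
  simp only [qv, map_add, map_mul, map_pow, AlgHom.commutes]

theorem aeval_quad (a2 a1 a0 : K) {R : Type} [CommRing R] [Algebra K R] (y : R) :
    aeval y (C a2 * X ^ 2 + C a1 * X + C a0) = qv a2 a1 a0 y := by
  simp only [qv, map_add, map_mul, map_pow, aeval_C, aeval_X]

/-- the curve `(b_1 y + b_0) ^ 2 ψ(w) = a_2 y ^ 2 + a_1 y + a_0` -/
noncomputable def CB (a2 a1 a0 b1 b0 : K) (ψ : K[X]) : KFn K :=
  (A1 K).line.cls ⟨fun x => qv 0 b1 b0 (lp x.1) ^ 2 * aeval x.2 ψ - qv a2 a1 a0 (lp x.1),
    fun f x => by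
      rw [map_sub, map_mul, map_pow, ← aeval_algHom_apply, qv_map, qv_map]
      rfl⟩

/-- the value `b_1 y + b_0` -/
def CB.b (a2 a1 a0 b1 b0 : K) (ψ : K[X]) : Coord (CB a2 a1 a0 b1 b0 ψ) where
  val x := qv 0 b1 b0 (lp x.1.1)
  nat f x := qv_map 0 b1 b0 f (lp x.1.1)

/-- the part `b = a = 0` -/
theorem mem_CB_zero [IsAlgClosed K] (hG : GOps K G) (a2 a1 a0 b1 b0 : K) (ψ : K[X]) :
    ((CB a2 a1 a0 b1 b0 ψ).cls (CB.b a2 a1 a0 b1 b0 ψ)).Mem G := by
  refine Mem.of_iso (F' := (Z2 (C 0 * X ^ 2 + C b1 * X + C b0)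
    (C a2 * X ^ 2 + C a1 * X + C a0)).line) ?_ (Mem.line hG.toKOps (mem_Z2 hG _ _))
  exact
    { hom := fun {R} _ _ x => (⟨⟨x.1.1.1, by
        have h1 : qv 0 b1 b0 (lp x.1.1.1) = 0 := x.2
        exact (aeval_quad 0 b1 b0 (lp x.1.1.1)).trans h1⟩, by
        have h1 : qv 0 b1 b0 (lp x.1.1.1) = 0 := x.2
        have h2 : qv 0 b1 b0 (lp x.1.1.1) ^ 2 * aeval x.1.1.2 ψ - qv a2 a1 a0 (lp x.1.1.1) = 0 :=
          x.1.2
        refine (aeval_quad a2 a1 a0 (lp x.1.1.1)).trans ?_
        rw [h1] at h2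
        linear_combination -h2⟩, x.1.1.2)
      inv := fun {R} _ _ y => ⟨⟨(y.1.1.1, y.2), by
        have h1 : aeval (lp y.1.1.1) (C 0 * X ^ 2 + C b1 * X + C b0) = 0 := y.1.1.2
        have h2 : aeval (lp y.1.1.1) (C a2 * X ^ 2 + C a1 * X + C a0) = 0 := y.1.2
        rw [aeval_quad] at h1 h2
        change qv 0 b1 b0 (lp y.1.1.1) ^ 2 * aeval y.2 ψ - qv a2 a1 a0 (lp y.1.1.1) = 0
        rw [h1, h2]
        ring⟩, by
        have h1 : aeval (lp y.1.1.1) (C 0 * X ^ 2 + C b1 * X + C b0) = 0 := y.1.1.2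
        rw [aeval_quad] at h1
        exact h1⟩
      inv_hom := fun _ => rfl
      hom_inv := fun _ => rfl
      nat := fun _ _ => rfl }

/-- the parameter on the curve -/
def QC.u (q ψ : K[X]) : Coord (QC q ψ) where
  val x := lp x.1.1
  nat _ _ := rfl

theorem mem_QC_opn [Finite k] [IsAlgClosed K] {p : ℕ} (hp : p.Prime) (hk : (p : K) = 0)
    (h2 : (2 : K) ≠ 0) (hG : GOps K G) (hW : Cst k G) {φ : k[X]} (hφ : Isg p φ) (q2 q1 q0 : K) :
    ((QC (C q2 * X ^ 2 + C q1 * X + C q0) (φ.map (algebraMap k K))).opn (QC.u _ _)).Mem G := by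
  refine mem_opn hG.toKOps _ (mem_QC hp hk h2 hG hW hφ q2 q1 q0) ?_
  refine Mem.of_iso (F' := Z2 (φ.map (algebraMap k K) - C q0) 0) ?_ (mem_val hG _ _)
  exact
    { hom := fun {R} _ _ x => ⟨⟨x.1.1.2, by
        have h5 : aeval x.1.1.2 (φ.map (algebraMap k K)) -
          aeval (lp x.1.1.1) (C q2 * X ^ 2 + C q1 * X + C q0) = 0 := x.1.2
        have h6 : lp x.1.1.1 = 0 := x.2
        rw [h6, aeval_quad, qv] at h5
        change aeval x.1.1.2 (φ.map (algebraMap k K) - C q0) = 0
        rw [map_sub, aeval_C]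
        linear_combination h5⟩, map_zero _⟩
      inv := fun {R} _ _ y => ⟨⟨((0 : R), y.1.1), by
        have h5 : aeval (lp y.1.1) (φ.map (algebraMap k K) - C q0) = 0 := y.1.2
        rw [map_sub, aeval_C] at h5
        change aeval (lp y.1.1) (φ.map (algebraMap k K)) -
          aeval (0 : R) (C q2 * X ^ 2 + C q1 * X + C q0) = 0
        rw [aeval_quad, qv]
        linear_combination h5⟩, rfl⟩
      inv_hom := fun {R} _ _ x => Subtype.ext (Subtype.ext (Prod.ext (x.2 : lp x.1.1.1 = 0).symm
        rfl))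
      hom_inv := fun _ => rfl
      nat := fun {R S} _ _ _ _ f x => Subtype.ext (Subtype.ext rfl) }

theorem mem_CB [Finite k] [IsAlgClosed K] {p : ℕ} (hp : p.Prime) (hk : (p : K) = 0)
    (h2 : (2 : K) ≠ 0) (hG : GOps K G) (hW : Cst k G) {φ : k[X]} (hφ : Isg p φ)
    (a2 a1 a0 b1 b0 : K) : (CB a2 a1 a0 b1 b0 (φ.map (algebraMap k K))).Mem G := by
  set ψ := φ.map (algebraMap k K) with hψ
  refine Mem.glue hG.toKOps (CB.b a2 a1 a0 b1 b0 ψ) ?_ (mem_CB_zero hG a2 a1 a0 b1 b0 ψ)
  by_cases hb1 : b1 = 0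
  · by_cases hb0 : b0 = 0
    · refine Mem.of_trivial hG.toKOps fun A _ _ x => ?_
      have h1 : IsUnit (qv 0 b1 b0 (lp x.1.1.1)) := x.2
      have h3 : ∀ y : A, qv 0 b1 b0 y = 0 := by
        intro y
        rw [qv, hb1, hb0, map_zero, zero_mul, zero_mul, add_zero, add_zero]
      rw [h3] at h1
      exact subsingleton_of_zero_eq_one (isUnit_zero_iff.1 h1)
    · -- the coefficient is constant
      have hu : ∀ (R : Type) [CommRing R] [Algebra K R] (y : R),
          qv 0 b1 b0 y = algebraMap K R b0 := by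
        intro R _ _ y
        rw [qv, hb1, map_zero, zero_mul, zero_mul, zero_add, zero_add]
      have hi : ∀ (R : Type) [CommRing R] [Algebra K R],
          algebraMap K R b0 * algebraMap K R b0⁻¹ = 1 := by
        intro R _ _
        rw [← map_mul, mul_inv_cancel₀ hb0, map_one]
      refine Mem.of_iso (F' := QC (C (b0⁻¹ ^ 2 * a2) * X ^ 2 + C (b0⁻¹ ^ 2 * a1) * X +
        C (b0⁻¹ ^ 2 * a0)) ψ) ?_ (mem_QC hp hk h2 hG hW hφ _ _ _)
      have hq : ∀ (R : Type) [CommRing R] [Algebra K R] (y : R),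
          aeval y (C (b0⁻¹ ^ 2 * a2) * X ^ 2 + C (b0⁻¹ ^ 2 * a1) * X +
            C (b0⁻¹ ^ 2 * a0)) = algebraMap K R b0⁻¹ ^ 2 * qv a2 a1 a0 y := by
        intro R _ _ y
        rw [aeval_quad]
        simp only [qv, map_mul, map_pow]
        ring
      exact
        { hom := fun {R} _ _ x => ⟨x.1.1, by
            have h3 : qv 0 b1 b0 (lp x.1.1.1) ^ 2 * aeval x.1.1.2 ψ -
              qv a2 a1 a0 (lp x.1.1.1) = 0 := x.1.2
            rw [hu] at h3
            change aeval x.1.1.2 ψ - aeval (lp x.1.1.1) _ = 0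
            rw [hq]
            have h4 := hi R
            linear_combination algebraMap K R b0⁻¹ ^ 2 * h3 - aeval x.1.1.2 ψ *
              (algebraMap K R b0 * algebraMap K R b0⁻¹ + 1) * h4⟩
          inv := fun {R} _ _ y => ⟨⟨y.1, by
            have h3 : aeval y.1.2 ψ - aeval (lp y.1.1) _ = 0 := y.2
            rw [hq] at h3
            change qv 0 b1 b0 (lp y.1.1) ^ 2 * aeval y.1.2 ψ - qv a2 a1 a0 (lp y.1.1) = 0
            rw [hu]
            have h4 := hi R
            linear_combination algebraMap K R b0 ^ 2 * h3 + qv a2 a1 a0 (lp y.1.1) *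
              (algebraMap K R b0 * algebraMap K R b0⁻¹ + 1) * h4⟩, by
            change IsUnit (qv 0 b1 b0 (lp y.1.1))
            rw [hu]
            exact unit_const hb0⟩
          inv_hom := fun _ => rfl
          hom_inv := fun _ => rfl
          nat := fun _ _ => rfl }
  · -- the coefficient is a coordinate
    set c := b1⁻¹ with hc
    have hbc : ∀ (R : Type) [CommRing R] [Algebra K R],
        algebraMap K R b1 * algebraMap K R c = 1 := by
      intro R _ _
      rw [← map_mul, hc, mul_inv_cancel₀ hb1, map_one]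
    set q2 := a0 - a1 * b0 * c + a2 * b0 ^ 2 * c ^ 2 with hq2
    set q1 := a1 * c - 2 * a2 * b0 * c ^ 2 with hq1
    set q0 := a2 * c ^ 2 with hq0
    have hq : ∀ (R : Type) [CommRing R] [Algebra K R] (u v y : R), u * v = 1 →
        algebraMap K R b1 * y + algebraMap K R b0 = v →
        qv q2 q1 q0 u = u ^ 2 * qv a2 a1 a0 y := by
      intro R _ _ u v y huv hy
      have h3 := hbc R
      have hy' : y = algebraMap K R c * (v - algebraMap K R b0) := by
        linear_combination algebraMap K R c * hy - y * h3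
      rw [hy']
      simp only [qv, hq2, hq1, hq0, map_add, map_sub, map_mul, map_pow, map_ofNat]
      linear_combination (-(algebraMap K R c * algebraMap K R a1 * u - 2 * algebraMap K R c ^ 2 *
        algebraMap K R a2 * algebraMap K R b0 * u + algebraMap K R c ^ 2 *
        algebraMap K R a2 * (u * v + 1))) * huv
    refine Mem.of_iso ?_ (mem_QC_opn hp hk h2 hG hW hφ q2 q1 q0)
    have hqv : ∀ (R : Type) [CommRing R] [Algebra K R] (y : R),
        qv 0 b1 b0 y = algebraMap K R b1 * y + algebraMap K R b0 := by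
      intro R _ _ y
      rw [qv, map_zero, zero_mul, zero_add]
    exact
      { hom := fun {R} _ _ x => ⟨⟨((Ring.inverse (qv 0 b1 b0 (lp x.1.1.1)) : R), x.1.1.2), by
          have h3 : qv 0 b1 b0 (lp x.1.1.1) ^ 2 * aeval x.1.1.2 ψ -
              qv a2 a1 a0 (lp x.1.1.1) = 0 := x.1.2
          have h4 : IsUnit (qv 0 b1 b0 (lp x.1.1.1)) := x.2
          have h5 := Ring.inverse_mul_cancel _ h4
          change aeval x.1.1.2 ψ - aeval (Ring.inverse (qv 0 b1 b0 (lp x.1.1.1))) _ = 0
          rw [aeval_quad, hq R _ _ (lp x.1.1.1) h5 (hqv R _).symm]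
          set i := Ring.inverse (qv 0 b1 b0 (lp x.1.1.1))
          set v := qv 0 b1 b0 (lp x.1.1.1)
          linear_combination i ^ 2 * h3 - aeval x.1.1.2 ψ * (i * v + 1) * h5⟩, by
          have h4 : IsUnit (qv 0 b1 b0 (lp x.1.1.1)) := x.2
          exact h4.ringInverse⟩
        inv := fun {R} _ _ y => ⟨⟨((algebraMap K R c * (Ring.inverse (lp y.1.1.1) -
            algebraMap K R b0) : R), y.1.1.2), by
          have h3 : aeval y.1.1.2 ψ - aeval (lp y.1.1.1) (C q2 * X ^ 2 + C q1 * X + C q0) = 0 :=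
            y.1.2
          have h4 : IsUnit (lp y.1.1.1) := y.2
          have h5 := Ring.mul_inverse_cancel _ h4
          have h6 := hbc R
          have h7 : algebraMap K R b1 * (algebraMap K R c * (Ring.inverse (lp y.1.1.1) -
            algebraMap K R b0)) + algebraMap K R b0 = Ring.inverse (lp y.1.1.1) := by
            linear_combination (Ring.inverse (lp y.1.1.1) - algebraMap K R b0) * h6
          rw [aeval_quad, hq R _ _ _ h5 h7] at h3
          change qv 0 b1 b0 (algebraMap K R c * (Ring.inverse (lp y.1.1.1) -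
            algebraMap K R b0)) ^ 2 * aeval y.1.1.2 ψ - qv a2 a1 a0 (algebraMap K R c *
            (Ring.inverse (lp y.1.1.1) - algebraMap K R b0)) = 0
          rw [hqv, h7]
          set i := Ring.inverse (lp y.1.1.1)
          linear_combination i ^ 2 * h3 + qv a2 a1 a0 (algebraMap K R c *
            (i - algebraMap K R b0)) * (lp y.1.1.1 * i + 1) * h5⟩, by
          have h4 : IsUnit (lp y.1.1.1) := y.2
          have h6 := hbc R
          have h7 : algebraMap K R b1 * (algebraMap K R c * (Ring.inverse (lp y.1.1.1) -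
            algebraMap K R b0)) + algebraMap K R b0 = Ring.inverse (lp y.1.1.1) := by
            linear_combination (Ring.inverse (lp y.1.1.1) - algebraMap K R b0) * h6
          change IsUnit (qv 0 b1 b0 (algebraMap K R c * (Ring.inverse (lp y.1.1.1) -
            algebraMap K R b0)))
          rw [hqv, h7]
          exact h4.ringInverse⟩
        inv_hom := fun {R} _ _ x => by
          have h4 : IsUnit (qv 0 b1 b0 (lp x.1.1.1)) := x.2
          have h6 := hbc R
          refine Subtype.ext (Subtype.ext (Prod.ext ?_ rfl))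
          change algebraMap K R c * (Ring.inverse (Ring.inverse (qv 0 b1 b0 (lp x.1.1.1))) -
            algebraMap K R b0) = lp x.1.1.1
          rw [inv_inv_unit h4, hqv]
          linear_combination lp x.1.1.1 * h6
        hom_inv := fun {R} _ _ y => by
          have h4 : IsUnit (lp y.1.1.1) := y.2
          have h6 := hbc R
          have h7 : algebraMap K R b1 * (algebraMap K R c * (Ring.inverse (lp y.1.1.1) -
            algebraMap K R b0)) + algebraMap K R b0 = Ring.inverse (lp y.1.1.1) := by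
            linear_combination (Ring.inverse (lp y.1.1.1) - algebraMap K R b0) * h6
          refine Subtype.ext (Subtype.ext (Prod.ext ?_ rfl))
          change Ring.inverse (qv 0 b1 b0 (algebraMap K R c * (Ring.inverse (lp y.1.1.1) -
            algebraMap K R b0))) = lp y.1.1.1
          rw [hqv, h7, inv_inv_unit h4]
        nat := fun {R S} _ _ _ _ f x => by
          have h4 : IsUnit (qv 0 b1 b0 (lp x.1.1.1)) := x.2
          refine Subtype.ext (Subtype.ext (Prod.ext ?_ rfl))
          change f (Ring.inverse (qv 0 b1 b0 (lp x.1.1.1))) =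
            Ring.inverse (qv 0 b1 b0 (f (lp x.1.1.1)))
          rw [inv_nat f h4, qv_map] }

end Pool.Agent.Helper71.WP
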