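import Pool.Agent.Helper71.WP.Conic3

/-!
# Covers of conic bundles over the line
-/

set_option autoImplicit false

namespace Pool.Agent.Helper71.WP

open Pool.Agent.Helper29.CQ Pool.Agent.Helper65.CC Pool.Agent.Helper87.CC
  Pool.Agent.Helper65.CC.KFn
open Pool.Agent.Helper9.QP (Cst)
open Pool.Agent.Helper71.PN
open Polynomial

variable {k : Type} [Field k]

/-- the coefficient of `y ^ j` in `f(τ, y)` -/
noncomputable def cf (f : MvPolynomial (Fin 2) k) (K : Type) [Field K] [Algebra k K] (τ : K)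
    (j : ℕ) : K :=
  ∑ m ∈ f.support.filter (fun m => m 1 = j), algebraMap k K (f.coeff m) * τ ^ m 0

theorem ev2_sum (f : MvPolynomial (Fin 2) k) {R : Type} [CommRing R] [Algebra k R] (x y : R) :
    ev2 f x y = ∑ m ∈ f.support, algebraMap k R (f.coeff m) * (x ^ m 0 * y ^ m 1) := by
  rw [ev2, MvPolynomial.aeval_def, MvPolynomial.eval₂_eq']
  refine Finset.sum_congr rfl fun m _ => ?_
  rw [Fin.prod_univ_two]
  rfl

theorem ev2_cf (f : MvPolynomial (Fin 2) k) (hf : ∀ m ∈ f.support, m 1 ≤ 2) {K : Type} [Field K]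
    [Algebra k K] (τ : K) {R : Type} [CommRing R] [Algebra K R] (y : R) :
    @ev2 k _ f R _ (rsA k K R) (algebraMap K R τ) y =
      qv (cf f K τ 2) (cf f K τ 1) (cf f K τ 0) y := by
  letI : Algebra k R := rsA k K R
  have hst : IsScalarTower k K R := IsScalarTower.of_algebraMap_eq fun _ => rfl
  have h1 : ev2 f (algebraMap K R τ) y = ∑ j ∈ Finset.range 3, algebraMap K R (cf f K τ j) *
      y ^ j := by
    rw [ev2_sum, ← Finset.sum_fiberwise_of_maps_to (s := f.support) (t := Finset.range 3)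
      (g := fun m => m 1) (fun m hm => Finset.mem_range.2 (Nat.lt_succ_of_le (hf m hm)))]
    refine Finset.sum_congr rfl fun j _ => ?_
    rw [cf, map_sum, Finset.sum_mul]
    refine Finset.sum_congr rfl fun m hm => ?_
    rw [(Finset.mem_filter.1 hm).2, map_mul, map_pow, ← IsScalarTower.algebraMap_apply k K R]
    ring
  refine h1.trans ?_
  rw [Finset.sum_range_succ, Finset.sum_range_succ, Finset.sum_range_one, qv]
  ring

theorem cf_zero (f : MvPolynomial (Fin 2) k) {j : ℕ} (hf : ∀ m ∈ f.support, m 1 < j) {K : Type}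
    [Field K] [Algebra k K] (τ : K) : cf f K τ j = 0 := by
  rw [cf, Finset.sum_eq_zero]
  intro m hm
  rw [Finset.mem_filter] at hm
  exact absurd hm.2 (hf m hm.1).ne

/-- the fibre over a point of the `x`-line -/
noncomputable def conFib (f g : MvPolynomial (Fin 2) k) (hf : ∀ m ∈ f.support, m 1 ≤ 2)
    (hg : ∀ m ∈ g.support, m 1 ≤ 1) (φ : k[X]) (K : Type) [Field K] [Algebra k K] (τ : K) :
    Iso (fibK (AF f g φ) ⟨fun x => x.1.1.1, fun _ _ => rfl⟩ K τ)
      (CB (cf f K τ 2) (cf f K τ 1) (cf f K τ 0) (cf g K τ 1) (cf g K τ 0)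
        (φ.map (algebraMap k K))) where
  hom {R} _ _ x := ⟨(x.1.1.1.2, x.1.1.2), by
    have h1 : @ev2 k _ g R _ (rsA k K R) x.1.1.1.1 x.1.1.1.2 ^ 2 *
      @aeval k R _ _ (rsA k K R) x.1.1.2 φ - @ev2 k _ f R _ (rsA k K R) x.1.1.1.1 x.1.1.1.2 = 0 :=
      x.1.2
    have h2 : x.1.1.1.1 = algebraMap K R τ := x.2
    have h3 := ev2_cf f hf τ x.1.1.1.2
    have h4 := ev2_cf g (fun m hm => (hg m hm).trans one_le_two) τ x.1.1.1.2
    rw [cf_zero g (j := 2) (fun m hm => Nat.lt_succ_of_le (hg m hm))] at h4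
    rw [h2, h3, h4, aeval_rs'] at h1
    exact h1⟩
  inv {R} _ _ y := ⟨⟨((algebraMap K R τ, y.1.1), y.1.2), by
    have h1 : qv 0 (cf g K τ 1) (cf g K τ 0) (lp y.1.1) ^ 2 *
      aeval y.1.2 (φ.map (algebraMap k K)) -
        qv (cf f K τ 2) (cf f K τ 1) (cf f K τ 0) (lp y.1.1) = 0 := y.2
    have h3 := ev2_cf f hf τ (lp y.1.1)
    have h4 := ev2_cf g (fun m hm => (hg m hm).trans one_le_two) τ (lp y.1.1)
    rw [cf_zero g (j := 2) (fun m hm => Nat.lt_succ_of_le (hg m hm))] at h4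
    rw [← h3, ← h4, ← aeval_rs'] at h1
    exact h1⟩, rfl⟩
  inv_hom {R} _ _ x := by
    have h2 : x.1.1.1.1 = algebraMap K R τ := x.2
    exact Subtype.ext (Subtype.ext (Prod.ext (Prod.ext h2.symm rfl) rfl))
  hom_inv _ := rfl
  nat _ _ := rfl

variable {p : ℕ} {P : ∀ (A : Type) [CommRing A], Prop}

/-- **Covers of conic bundles**: `g(x, y) ^ 2 φ(w) = f(x, y)` with `g` linear and `f` quadratic
in `y` -/
theorem conic_mem [Finite k] (hp : p.Prime) (hp2 : p ≠ 2) (hP : FormalClass p P) [CharP k p]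
    (f g : MvPolynomial (Fin 2) k) (hf : ∀ m ∈ f.support, m 1 ≤ 2)
    (hg : ∀ m ∈ g.support, m 1 ≤ 1) {φ : k[X]} (hφ : Isg p φ) :
    (AF f g φ).Mem (fun R _ _ => P R) := by
  refine fib_mem hp hP k _ ⟨fun x => x.1.1.1, fun _ _ => rfl⟩ ?_
  intro K _ _ _ _ τ G hG hW
  have hk : (p : K) = 0 := CharP.cast_eq_zero K p
  have h2K : (2 : K) ≠ 0 := by
    intro h
    have h3 : ((2 : ℕ) : K) = 0 := by
      rw [Nat.cast_ofNat]
      exact h
    rw [CharP.cast_eq_zero_iff K p] at h3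
    have h4 := (Nat.prime_dvd_prime_iff_eq hp Nat.prime_two).1 h3
    exact hp2 h4
  exact Mem.of_iso (conFib f g hf hg φ K τ) (mem_CB hp hk h2K hG hW hφ _ _ _ _ _)

/-- covers of conic bundles -/
theorem conic_pencils [Finite k] (hp : p.Prime) (hp2 : p ≠ 2) (hP : FormalClass p P) [CharP k p]
    (f g : MvPolynomial (Fin 2) k) (hf : ∀ m ∈ f.support, m 1 ≤ 2)
    (hg : ∀ m ∈ g.support, m 1 ≤ 1) {φ : k[X]} (hφ : Isg p φ) :
    P (AdjoinRoot (gp f g φ)) := by
  obtain ⟨b, hb⟩ := rep_AF f g φ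
  have hft : Algebra.FiniteType k (AdjoinRoot (gp f g φ)) :=
    Algebra.FiniteType.trans (S := MvPolynomial (Fin 2) k) inferInstance inferInstance
  exact conic_mem hp hp2 hP f g hf hg hφ _ b hft hb

end Pool.Agent.Helper71.WP
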