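import Mathlib

/-!
# Isogeny classes: definitions
-/

set_option autoImplicit false

namespace Pool.Agent.Helper71.IC

open Polynomial TensorProduct

/-- `A` is a finitely generated ring in which `p = 0`. -/
def Fg (p : ℕ) (A : Type) [CommRing A] : Prop :=
  Algebra.FiniteType ℤ A ∧ (p : A) = 0

/-- `P` is closed under isomorphisms and under tensor products over `ℤ`. -/
def Pair (P : ∀ (A : Type) [CommRing A], Prop) (A B : Type) [CommRing A] [CommRing B] : Prop :=
  (A ≃+* B → P A → P B) ∧ (P A → P B → P (A ⊗[ℤ] B))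

/-- `A` is in `P` if and only if `A[x]` is. -/
def Line (P : ∀ (A : Type) [CommRing A], Prop) (A : Type) [CommRing A] : Prop :=
  P A ↔ P A[X]

/-- `A / e` is in `P` if `A` is and `e ^ 2 = e`. -/
def Summand (P : ∀ (A : Type) [CommRing A], Prop) (A : Type) [CommRing A] (e : A) : Prop :=
  e ^ 2 = e → P A → P (A ⧸ Ideal.span {e})

/-- If two of `A / a`, `A`, `A_a` are in `P`, so is the third. -/
def Glue (P : ∀ (A : Type) [CommRing A], Prop) (A : Type) [CommRing A] (a : A) : Prop :=
  (P (A ⧸ Ideal.span {a}) → P (Localization.Away a) → P A) ∧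
    (P A → P (Localization.Away a) → P (A ⧸ Ideal.span {a})) ∧
    (P A → P (A ⧸ Ideal.span {a}) → P (Localization.Away a))

/-- `A` is in `P` if the finite free `A`-algebra `B ≠ 0` is. -/
def Descent (P : ∀ (A : Type) [CommRing A], Prop) (A B : Type) [CommRing A] [CommRing B]
    [Algebra A B] : Prop :=
  Nontrivial B → Module.Free A B → Module.Finite A B → P B → P A

/-- Untwisting of `w ^ n = a`, `a` a unit and `p` not dividing `n`: `A[w] / (w ^ n - a)` is in `P`
if `A[z, v] / (a z ^ n - v (1 - v))` is. -/
def Mult (p : ℕ) (P : ∀ (A : Type) [CommRing A], Prop) (A : Type) [CommRing A] (n : ℕ)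
    (a : A) : Prop :=
  IsUnit a → ¬ p ∣ n → P (AdjoinRoot (C (C a * X ^ n) - X * (1 - X) : A[X][X])) →
    P (AdjoinRoot (X ^ n - C a : A[X]))

/-- `φ` is additive: all its exponents are powers of `p`. -/
def Additive (p : ℕ) {K : Type} [Field K] (φ : K[X]) : Prop :=
  ∀ e ∈ φ.support, ∃ i, e = p ^ i

/-- Untwisting of `φ(w) = a`, `φ` additive with `φ' ≠ 0` and `p ≠ 2`: `A[w] / (φ(w) - a)` is in `P`
if `A[z, v] / (v ^ 2 - a + φ(z))` is. -/
def Add (p : ℕ) (P : ∀ (A : Type) [CommRing A], Prop) (K A : Type) [Field K] [Finite K]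
    [CommRing A] [Algebra K A] (φ : K[X]) (a : A) : Prop :=
  Additive p φ → φ.derivative ≠ 0 → p ≠ 2 →
    P (AdjoinRoot (X ^ 2 - C (C a - φ.map (algebraMap K A)) : A[X][X])) →
      P (AdjoinRoot (φ.map (algebraMap K A) - C a : A[X]))

/-- **Isogeny classes**: classes of finitely generated rings in which `p = 0`, closed under cut and
paste, products, descent along finite free algebras and the two untwisting rules. -/
structure IsogenyClass (p : ℕ) (P : ∀ (A : Type) [CommRing A], Prop) : Prop where
  /-- the members are finitely generated and `p = 0` in them -/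
  fg : ∀ (A : Type) [CommRing A], P A → Fg p A
  /-- rings of dimension at most one -/
  curve : ∀ (A : Type) [CommRing A], Fg p A → ringKrullDim A ≤ 1 → P A
  /-- isomorphisms, tensor products -/
  pair : ∀ (A B : Type) [CommRing A] [CommRing B], Pair P A B
  /-- affine lines -/
  line : ∀ (A : Type) [CommRing A], Line P A
  /-- summands -/
  summand : ∀ (A : Type) [CommRing A] (e : A), Summand P A e
  /-- cut and paste -/
  glue : ∀ (A : Type) [CommRing A] (a : A), Fg p A → Glue P A a
  /-- descent -/
  descent : ∀ (A B : Type) [CommRing A] [CommRing B] [Algebra A B], Fg p A → Descent P A B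
  /-- untwisting, multiplicative group -/
  mult : ∀ (A : Type) [CommRing A] (n : ℕ) (a : A), Fg p A → Mult p P A n a
  /-- untwisting, additive group -/
  add : ∀ (K A : Type) [Field K] [Finite K] [CommRing A] [Algebra K A] (φ : K[X]) (a : A),
    Fg p A → Add p P K A φ a

end Pool.Agent.Helper71.IC
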