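import Pool.Agent.Helper71.WP.Cone

/-!
# Cyclic covers of weighted planes
-/

set_option autoImplicit false

namespace Pool.Agent.Helper71.WP

open Pool.Agent.Helper29.CQ Pool.Agent.Helper65.CC Pool.Agent.Helper87.CC
  Pool.Agent.Helper65.CC.KFn
open Pool.Agent.Helper71.PN
open Pool.Agent.Helper29.PF (plane_closed StableClass)
open Pool.Agent.Helper9.QP (Gen)
open Polynomial

variable {k : Type} [Field k] {p : ℕ} {P : ∀ (A : Type) [CommRing A], Prop}

theorem gp_pow (f g : MvPolynomial (Fin 2) k) (n : ℕ) :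
    gp f g (X ^ n) = C (g ^ 2) * X ^ n - C f := by
  rw [gp, Polynomial.map_pow, map_X]

theorem tame_le [Finite k] (hp : p.Prime) (hp2 : p ≠ 2) (hP : StableClass p P) [CharP k p]
    {a b : ℕ} (hab : a ≤ b) (hb : 0 < b) (f g : MvPolynomial (Fin 2) k)
    (hf : ∀ m ∈ f.support, a * m 0 + b * m 1 ≤ 2 * (a + b))
    (hg : ∀ m ∈ g.support, a * m 0 + b * m 1 ≤ a + b) (n : ℕ) (hn : 0 < n) :
    P (AdjoinRoot (gp f g (X ^ n))) := by
  rcases hab.eq_or_lt with rfl | hlt
  · rw [gp_pow]
    refine Pool.Agent.Helper9.QP.quartic_pencils hp hp2 hP f g ?_ ?_ n hn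
    · exact wt_plane hb f fun m hm => (hf m hm).trans (le_of_eq (by ring))
    · exact wt_plane hb g fun m hm => (hg m hm).trans (le_of_eq (by ring))
  · by_cases h2 : b ≤ 2 * a
    · rw [gp_pow]
      exact Pool.Agent.Helper9.TP.cone_tame cone6Blocks hp hp2 hP f g
        (fun m hm => wt_cone_f hlt h2 (hf m hm)) (fun m hm => wt_cone_g hlt h2 (hg m hm)) n hn
    · exact conic_pencils hp hp2 hP.toFormalClass f g
        (fun m hm => wt_conic_f (by omega) (hf m hm)) (fun m hm => wt_conic_g (by omega) (hg m hm))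
        (Or.inl ⟨n, hn, rfl⟩)

/-- **Cyclic covers of weighted planes**: `g ^ 2 w ^ n = f` -/
theorem tame [Finite k] (hp : p.Prime) (hp2 : p ≠ 2) (hP : StableClass p P) [CharP k p]
    {a b : ℕ} (hab : 0 < a + b) (f g : MvPolynomial (Fin 2) k)
    (hf : ∀ m ∈ f.support, a * m 0 + b * m 1 ≤ 2 * (a + b))
    (hg : ∀ m ∈ g.support, a * m 0 + b * m 1 ≤ a + b) (n : ℕ) (hn : 0 < n) :
    P (Gen (MvPolynomial (Fin 2) k) n (g ^ 2) f) := by
  have h0 : P (AdjoinRoot (gp f g (X ^ n))) := by
    rcases le_total a b with h | h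
    · exact tame_le hp hp2 hP h (by omega) f g hf hg n hn
    · refine mem_sw hP.toFormalClass (CharP.cast_eq_zero k p) f g _
        (tame_le hp hp2 hP h (by omega) (sw f) (sw g) ?_ ?_ n hn)
      · intro m hm
        obtain ⟨n, hn, h0, h1⟩ := supp_sw f hm
        have h2 := hf n hn
        rw [h0, h1] at h2
        omega
      · intro m hm
        obtain ⟨n, hn, h0, h1⟩ := supp_sw g hm
        have h2 := hg n hn
        rw [h0, h1] at h2
        omega
  rw [gp_pow] at h0
  exact h0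

end Pool.Agent.Helper71.WP
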